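import Mathlib

set_option autoImplicit false

/-!
# Hurwitz zeta values at `n` and rational points: sizes, and the Fourier formula for
`ζ(n, 1 - a/q) + (-1)^n ζ(n, a/q)`
-/

namespace Pool.Agent.Work.MP_f1a024_nt.HD

open Complex Finset

/-- Hurwitz zeta value `ζ(n, x) = ∑_{m ≥ 0} (m + x)^(-n)` -/
noncomputable def hz (n : ℕ) (x : ℝ) : ℝ := ∑' m : ℕ, 1 / ((m : ℝ) + x) ^ n

theorem summ {n : ℕ} (hn : 2 ≤ n) {x : ℝ} (hx : 0 < x) :
    Summable (fun m : ℕ => 1 / ((m : ℝ) + x) ^ n) := by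
  have h := (Real.summable_one_div_nat_add_rpow x (n : ℝ)).2 (by exact_mod_cast (by omega : 1 < n))
  refine h.congr fun m => ?_
  rw [Real.rpow_natCast, abs_of_pos (by positivity)]

theorem hz_ge {n : ℕ} (hn : 2 ≤ n) {x : ℝ} (hx : 0 < x) : 1 / x ^ n ≤ hz n x := by
  have h := (summ hn hx).le_tsum 0 (fun m _ => by positivity)
  rw [Nat.cast_zero, zero_add] at h
  exact h

theorem hz_pos {n : ℕ} (hn : 2 ≤ n) {x : ℝ} (hx : 0 < x) : 0 < hz n x :=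
  lt_of_lt_of_le (by positivity) (hz_ge hn hx)

theorem hz_le {n : ℕ} (hn : 2 ≤ n) {x : ℝ} (hx : 0 < x) : hz n x ≤ 1 / x ^ n + 5 / 3 := by
  have hs := summ hn hx
  have h1 : hz n x = 1 / x ^ n + ∑' m : ℕ, 1 / (((m + 1 : ℕ) : ℝ) + x) ^ n := by
    unfold hz
    rw [hs.tsum_eq_zero_add]
    simp
  have h2 : HasSum (fun m : ℕ => 1 / ((m : ℝ)) ^ 2) (Real.pi ^ 2 / 6) := hasSum_zeta_two
  have h3 : ∑' m : ℕ, 1 / (((m + 1 : ℕ) : ℝ)) ^ 2 = Real.pi ^ 2 / 6 := by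
    have h4 := h2.summable.tsum_eq_zero_add
    rw [h2.tsum_eq] at h4
    rw [h4]
    simp
  have h5 : Summable (fun m : ℕ => 1 / (((m + 1 : ℕ) : ℝ)) ^ 2) :=
    (summable_nat_add_iff (f := fun m : ℕ => 1 / ((m : ℝ)) ^ 2) 1).2 h2.summable
  have h6 : Summable (fun m : ℕ => 1 / (((m + 1 : ℕ) : ℝ) + x) ^ n) :=
    (summable_nat_add_iff (f := fun m : ℕ => 1 / ((m : ℝ) + x) ^ n) 1).2 hs
  have h7 : ∑' m : ℕ, 1 / (((m + 1 : ℕ) : ℝ) + x) ^ n ≤ ∑' m : ℕ, 1 / (((m + 1 : ℕ) : ℝ)) ^ 2 := by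
    refine h6.tsum_le_tsum (fun m => ?_) h5
    have h8 : (1 : ℝ) ≤ ((m + 1 : ℕ) : ℝ) := by
      push_cast
      linarith [(Nat.cast_nonneg m : (0 : ℝ) ≤ m)]
    refine one_div_le_one_div_of_le (by positivity) ?_
    calc (((m + 1 : ℕ) : ℝ)) ^ 2 ≤ (((m + 1 : ℕ) : ℝ)) ^ n := pow_le_pow_right₀ h8 hn
      _ ≤ (((m + 1 : ℕ) : ℝ) + x) ^ n := pow_le_pow_left₀ (by positivity) (by linarith) n
  rw [h3] at h7
  have h9 : Real.pi ^ 2 / 6 ≤ 5 / 3 := by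
    have := Real.pi_lt_d2
    have h10 := Real.pi_pos
    nlinarith
  rw [h1]
  linarith

/-- the size inequality -/
theorem size {n q c : ℕ} (hn : 2 ≤ n) (hq : 5 ≤ q) (hc : 2 ≤ c) (hcq : c + 2 ≤ q) :
    hz n ((c : ℝ) / q) + hz n (1 - (c : ℝ) / q) <
      hz n ((1 : ℕ) / (q : ℝ)) - hz n (1 - (1 : ℕ) / (q : ℝ)) := by
  have hq0 : (0 : ℝ) < q := by exact_mod_cast (by omega : 0 < q)
  have hq5 : (5 : ℝ) ≤ q := by exact_mod_cast hq
  have hc2 : (2 : ℝ) ≤ c := by exact_mod_cast hc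
  have hcq2 : (c : ℝ) + 2 ≤ q := by exact_mod_cast hcq
  have e1 : (1 - (c : ℝ) / q) = (q - c) / q := by field_simp
  have e2 : (1 - ((1 : ℕ) : ℝ) / (q : ℝ)) = (q - 1) / q := by push_cast; field_simp
  have a1 := hz_le hn (x := (c : ℝ) / q) (by positivity)
  have a2 := hz_le hn (x := 1 - (c : ℝ) / q) (by rw [e1]; exact div_pos (by linarith) hq0)
  have a3 := hz_ge hn (x := ((1 : ℕ) : ℝ) / (q : ℝ)) (by positivity)
  have a4 := hz_le hn (x := 1 - ((1 : ℕ) : ℝ) / (q : ℝ))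
    (by rw [e2]; exact div_pos (by linarith) hq0)
  -- bounds of the main terms
  have key : ∀ d y : ℝ, 0 < d → d * (q : ℝ)⁻¹ ≤ y → 1 / y ^ n ≤ (1 / d) ^ n * q ^ n := by
    intro d y hd hy
    have hdq : 0 < d * (q : ℝ)⁻¹ := by positivity
    calc 1 / y ^ n ≤ 1 / (d * (q : ℝ)⁻¹) ^ n :=
          one_div_le_one_div_of_le (by positivity) (pow_le_pow_left₀ hdq.le hy n)
      _ = (1 / d) ^ n * q ^ n := by
          rw [mul_pow, inv_pow, one_div_pow]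
          field_simp
  have k1 := key 2 ((c : ℝ) / q) (by norm_num) (by rw [div_eq_mul_inv]; gcongr)
  have k2 := key 2 (1 - (c : ℝ) / q) (by norm_num) (by
    rw [e1, div_eq_mul_inv]
    gcongr
    linarith)
  have k3 := key 4 (1 - ((1 : ℕ) : ℝ) / (q : ℝ)) (by norm_num) (by
    rw [e2, div_eq_mul_inv]
    gcongr
    linarith)
  have k4 : 1 / (((1 : ℕ) : ℝ) / (q : ℝ)) ^ n = (q : ℝ) ^ n := by
    push_cast
    rw [one_div_pow, one_div_one_div]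
  have p2 : ((1 : ℝ) / 2) ^ n ≤ 1 / 4 := by
    calc ((1 : ℝ) / 2) ^ n ≤ (1 / 2) ^ 2 := pow_le_pow_of_le_one (by norm_num) (by norm_num) hn
      _ = 1 / 4 := by norm_num
  have p4 : ((1 : ℝ) / 4) ^ n ≤ 1 / 16 := by
    calc ((1 : ℝ) / 4) ^ n ≤ (1 / 4) ^ 2 := pow_le_pow_of_le_one (by norm_num) (by norm_num) hn
      _ = 1 / 16 := by norm_num
  have hQ : (25 : ℝ) ≤ (q : ℝ) ^ n := by
    calc (25 : ℝ) = 5 ^ 2 := by norm_num
      _ ≤ 5 ^ n := pow_le_pow_right₀ (by norm_num) hn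
      _ ≤ (q : ℝ) ^ n := pow_le_pow_left₀ (by norm_num) hq5 n
  have m1 : ((1 : ℝ) / 2) ^ n * (q : ℝ) ^ n ≤ 1 / 4 * (q : ℝ) ^ n :=
    mul_le_mul_of_nonneg_right p2 (by positivity)
  have m2 : ((1 : ℝ) / 4) ^ n * (q : ℝ) ^ n ≤ 1 / 16 * (q : ℝ) ^ n :=
    mul_le_mul_of_nonneg_right p4 (by positivity)
  rw [k4] at a3
  linarith

end Pool.Agent.Work.MP_f1a024_nt.HD
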