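import Pool.Agent.Work.MP_f1a024_nt.HD.A

set_option autoImplicit false

/-!
# The Fourier formula
-/

namespace Pool.Agent.Work.MP_f1a024_nt.HD

open Complex Finset

/-- the root of unity `exp(2 π i / q)` -/
noncomputable def zt (q : ℕ) : ℂ := Complex.exp (2 * Real.pi * I / q)

theorem zt_prim {q : ℕ} (hq : q ≠ 0) : IsPrimitiveRoot (zt q) q := Complex.isPrimitiveRoot_exp q hq

/-- the rational numbers `B_n(j/q)` -/
noncomputable def bq (n q j : ℕ) : ℚ := (Polynomial.bernoulli n).eval ((j : ℚ) / q)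

theorem bern_rat (n q j : ℕ) : bernoulliFun n ((j : ℝ) / q) = ((bq n q j : ℚ) : ℝ) := by
  unfold bernoulliFun bq
  have h : ((j : ℝ) / q) = algebraMap ℚ ℝ ((j : ℚ) / q) := by simp
  rw [h, Polynomial.eval_map, Polynomial.eval₂_hom]
  rfl

theorem four_pos {q : ℕ} (j m : ℕ) :
    fourier (m : ℤ) (((j : ℝ) / q : ℝ) : UnitAddCircle) = zt q ^ (j * m) := by
  rw [fourier_coe_apply, zt, ← Complex.exp_nat_mul]
  congr 1
  push_cast
  ring

theorem four_neg {q : ℕ} (j m : ℕ) :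
    fourier (-(m : ℤ)) (((j : ℝ) / q : ℝ) : UnitAddCircle) = (zt q)⁻¹ ^ (j * m) := by
  rw [fourier_coe_apply, zt, ← Complex.exp_neg, ← Complex.exp_nat_mul]
  congr 1
  push_cast
  ring

/-- weights -/
noncomputable def wt (n q a m : ℕ) : ℂ :=
  ∑ j ∈ range q, zt q ^ (j * a) * (zt q ^ (j * m) + (-1) ^ n * (zt q)⁻¹ ^ (j * m))

/-- `∑_j B_n(j/q) ζ^(j a)` -/
noncomputable def GG (n q a : ℕ) : ℂ := ∑ j ∈ range q, ((bq n q j : ℚ) : ℂ) * zt q ^ (j * a)

theorem hasSum_wt {n q : ℕ} (hn : 2 ≤ n) (a : ℕ) :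
    HasSum (fun m : ℕ => 1 / (m : ℂ) ^ n * wt n q a m)
      (-(2 * Real.pi * I) ^ n / (n.factorial : ℂ) * GG n q a) := by
  have h : ∀ j ∈ range q, HasSum (fun m : ℕ => zt q ^ (j * a) * (1 / (m : ℂ) ^ n *
      (zt q ^ (j * m) + (-1) ^ n * (zt q)⁻¹ ^ (j * m))))
      (zt q ^ (j * a) * (-(2 * Real.pi * I) ^ n / (n.factorial : ℂ) * ((bq n q j : ℚ) : ℂ))) := by
    intro j hj
    have hjq : j < q := mem_range.1 hj
    have hx : ((j : ℝ) / q) ∈ Set.Icc (0 : ℝ) 1 :=
      ⟨by positivity, by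
        rw [div_le_one (by exact_mod_cast (by omega : 0 < q))]
        exact_mod_cast hjq.le⟩
    have h1 := (hasSum_one_div_nat_pow_mul_fourier hn hx).mul_left (zt q ^ (j * a))
    rw [bern_rat] at h1
    simp only [four_pos, four_neg] at h1
    exact_mod_cast h1
  have h2 := hasSum_sum h
  have e1 : (fun m : ℕ => ∑ j ∈ range q, zt q ^ (j * a) * (1 / (m : ℂ) ^ n *
      (zt q ^ (j * m) + (-1) ^ n * (zt q)⁻¹ ^ (j * m)))) =
      fun m : ℕ => 1 / (m : ℂ) ^ n * wt n q a m := by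
    funext m
    unfold wt
    rw [mul_sum]
    refine sum_congr rfl fun j _ => ?_
    ring
  have e2 : ∑ j ∈ range q, zt q ^ (j * a) * (-(2 * Real.pi * I) ^ n / (n.factorial : ℂ) *
      ((bq n q j : ℚ) : ℂ)) = -(2 * Real.pi * I) ^ n / (n.factorial : ℂ) * GG n q a := by
    unfold GG
    rw [mul_sum]
    refine sum_congr rfl fun j _ => ?_
    ring
  rw [e1, e2] at h2
  exact h2

theorem geom {q : ℕ} (z : ℂ) (hz : z ^ q = 1) :
    ∑ j ∈ range q, z ^ j = if z = 1 then (q : ℂ) else 0 := by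
  split_ifs with h
  · rw [h]
    simp
  · have h1 := mul_geom_sum z q
    rw [hz, sub_self] at h1
    rcases mul_eq_zero.1 h1 with h2 | h2
    · exact absurd (sub_eq_zero.1 h2) h
    · exact h2

theorem wt_eval {n q a r : ℕ} (ha : 0 < a) (haq : a < q) (hr : r < q) :
    wt n q a r = (q : ℂ) * ((if r = q - a then 1 else 0) + (-1) ^ n * (if r = a then 1 else 0)) := by
  have hp := zt_prim (by omega : q ≠ 0)
  have hq1 : zt q ^ q = 1 := hp.pow_eq_one
  have hq2 : (zt q)⁻¹ ^ q = 1 := by rw [inv_pow, hq1, inv_one]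
  have hz0 : zt q ≠ 0 := hp.ne_zero (by omega)
  have e1 : wt n q a r = (∑ j ∈ range q, (zt q ^ (a + r)) ^ j) +
      (-1) ^ n * ∑ j ∈ range q, (zt q ^ a * (zt q)⁻¹ ^ r) ^ j := by
    unfold wt
    rw [mul_sum, ← sum_add_distrib]
    refine sum_congr rfl fun j _ => ?_
    rw [mul_pow, ← pow_mul, ← pow_mul, ← pow_mul, mul_comm j a, mul_comm j r, add_mul, pow_add]
    ring
  have e2 : (zt q ^ (a + r)) ^ q = 1 := by rw [← pow_mul, mul_comm, pow_mul, hq1, one_pow]
  have e3 : (zt q ^ a * (zt q)⁻¹ ^ r) ^ q = 1 := by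
    rw [mul_pow, ← pow_mul, ← pow_mul, mul_comm a, mul_comm r, pow_mul, pow_mul, hq1, hq2, one_pow,
      one_pow, mul_one]
  have c1 : zt q ^ (a + r) = 1 ↔ r = q - a := by
    rw [hp.pow_eq_one_iff_dvd]
    constructor
    · rintro ⟨k, hk⟩
      have : k = 1 := by
        rcases k with _ | _ | k
        · omega
        · rfl
        · exfalso
          have : q * (k + 1 + 1) ≥ 2 * q := by nlinarith
          omega
      subst this
      omega
    · rintro rfl
      exact ⟨1, by omega⟩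
  have c2 : zt q ^ a * (zt q)⁻¹ ^ r = 1 ↔ r = a := by
    rw [inv_pow, mul_inv_eq_one₀ (pow_ne_zero _ hz0)]
    constructor
    · intro h
      exact (hp.pow_inj haq hr h).symm
    · rintro rfl
      rfl
  rw [e1, geom _ e2, geom _ e3, mul_add]
  congr 1
  · by_cases h : r = q - a
    · rw [if_pos (c1.2 h), if_pos h, mul_one]
    · rw [if_neg (fun h' => h (c1.1 h')), if_neg h, mul_zero]
  · by_cases h : r = a
    · rw [if_pos (c2.2 h), if_pos h]
      ring
    · rw [if_neg (fun h' => h (c2.1 h')), if_neg h]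
      ring

theorem wt_period {n q a r l : ℕ} (hq : q ≠ 0) : wt n q a (r + q * l) = wt n q a r := by
  have hp := zt_prim hq
  have hq1 : zt q ^ q = 1 := hp.pow_eq_one
  have hq2 : (zt q)⁻¹ ^ q = 1 := by rw [inv_pow, hq1, inv_one]
  unfold wt
  refine sum_congr rfl fun j _ => ?_
  have e1 : j * (r + q * l) = j * r + q * (j * l) := by ring
  rw [e1, pow_add, pow_mul _ q, hq1, one_pow, mul_one, pow_add, pow_mul _ q, hq2, one_pow, mul_one]

/-- the sum over a residue class -/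
theorem class_sum {n q r : ℕ} (hq : q ≠ 0) :
    ∑' l : ℕ, 1 / (((r + q * l : ℕ) : ℂ)) ^ n = ((1 / (q : ℝ) ^ n * hz n ((r : ℝ) / q) : ℝ) : ℂ) := by
  have hq0 : (q : ℝ) ≠ 0 := by exact_mod_cast hq
  unfold hz
  rw [← tsum_mul_left, Complex.ofReal_tsum]
  refine tsum_congr fun l => ?_
  have e1 : (1 : ℝ) / (q : ℝ) ^ n * (1 / ((l : ℝ) + (r : ℝ) / q) ^ n) =
      1 / (((r + q * l : ℕ) : ℝ)) ^ n := by
    rw [one_div_mul_one_div, ← mul_pow]
    congr 2
    push_cast
    field_simp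
    ring
  rw [e1]
  push_cast
  rfl

/-- the Fourier formula -/
theorem four {n q a : ℕ} (hn : 2 ≤ n) (ha : 0 < a) (haq : a < q) :
    (((1 / (q : ℝ) ^ n) * (hz n (((q - a : ℕ) : ℝ) / q) + (-1) ^ n * hz n ((a : ℝ) / q)) : ℝ) : ℂ) *
      (q : ℂ) = -(2 * Real.pi * I) ^ n / (n.factorial : ℂ) * GG n q a := by
  have hq : q ≠ 0 := by omega
  have : NeZero q := ⟨hq⟩
  have hs := hasSum_wt (n := n) (q := q) hn a
  rw [← hs.tsum_eq, Nat.sumByResidueClasses hs.summable q]
  have e1 : ∀ r : ZMod q, ∑' l : ℕ, (1 / (((r.val + q * l : ℕ) : ℂ)) ^ n *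
      wt n q a (r.val + q * l)) =
      ((1 / (q : ℝ) ^ n * hz n ((r.val : ℝ) / q) : ℝ) : ℂ) *
        ((q : ℂ) * ((if r.val = q - a then 1 else 0) + (-1) ^ n * (if r.val = a then 1 else 0))) := by
    intro r
    have e2 : ∀ l : ℕ, (1 / (((r.val + q * l : ℕ) : ℂ)) ^ n * wt n q a (r.val + q * l)) =
        1 / (((r.val + q * l : ℕ) : ℂ)) ^ n * wt n q a r.val := by
      intro l
      rw [wt_period hq]
    simp_rw [e2]
    rw [tsum_mul_right, class_sum hq, wt_eval ha haq (ZMod.val_lt r)]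
  rw [sum_congr rfl fun r _ => e1 r]
  have e3 : ∀ r : ZMod q, ((1 / (q : ℝ) ^ n * hz n ((r.val : ℝ) / q) : ℝ) : ℂ) *
        ((q : ℂ) * ((if r.val = q - a then 1 else 0) + (-1) ^ n * (if r.val = a then 1 else 0))) =
      (if r = ((q - a : ℕ) : ZMod q) then
        (((1 / (q : ℝ) ^ n) * hz n (((q - a : ℕ) : ℝ) / q) : ℝ) : ℂ) * q else 0) +
      (if r = (a : ZMod q) then
        (-1) ^ n * ((((1 / (q : ℝ) ^ n) * hz n ((a : ℝ) / q) : ℝ) : ℂ) * q) else 0) := by
    intro r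
    have d1 : r = ((q - a : ℕ) : ZMod q) ↔ r.val = q - a := by
      constructor
      · rintro rfl
        exact ZMod.val_cast_of_lt (by omega)
      · intro h
        rw [← h, ZMod.natCast_zmod_val]
    have d2 : r = (a : ZMod q) ↔ r.val = a := by
      constructor
      · rintro rfl
        exact ZMod.val_cast_of_lt haq
      · intro h
        rw [← h, ZMod.natCast_zmod_val]
    simp only [d1, d2]
    by_cases h1 : r.val = q - a
    · rw [if_pos h1, if_pos h1]
      by_cases h2 : r.val = a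
      · rw [if_pos h2, if_pos h2]
        have h3 : a = q - a := by omega
        rw [h1]
        have h4 : ((a : ℕ) : ℝ) = ((q - a : ℕ) : ℝ) := by rw [← h3]
        rw [h4]
        ring
      · rw [if_neg h2, if_neg h2, h1]
        ring
    · rw [if_neg h1, if_neg h1]
      by_cases h2 : r.val = a
      · rw [if_pos h2, if_pos h2, h2]
        ring
      · rw [if_neg h2, if_neg h2]
        ring
  rw [sum_congr rfl fun r _ => e3 r, sum_add_distrib, sum_ite_eq' univ, sum_ite_eq' univ,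
    if_pos (mem_univ _), if_pos (mem_univ _)]
  push_cast
  ring

end Pool.Agent.Work.MP_f1a024_nt.HD
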