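import Pool.Agent.Work.MP_f1a024_nt.HD.B

set_option autoImplicit false

/-!
# Conjugates

`σ` is an automorphism of the field of algebraic numbers.  An algebraic number some power of which is
rational has conjugates of the same absolute value.
-/

namespace Pool.Agent.Work.MP_f1a024_nt.HD

open Complex Finset

/-- the field of algebraic numbers in `ℂ` -/
noncomputable abbrev LL : IntermediateField ℚ ℂ := algebraicClosure ℚ ℂ

theorem mem_LL {x : ℂ} {j : ℕ} (hj : 0 < j) {r : ℚ} (h : x ^ j = (r : ℂ)) : x ∈ LL := by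
  rw [mem_algebraicClosure_iff]
  refine ⟨Polynomial.X ^ j - Polynomial.C r, Polynomial.X_pow_sub_C_ne_zero hj r, ?_⟩
  simp [h]

theorem norm_conj (σ : LL ≃ₐ[ℚ] LL) (y : LL) {j : ℕ} (hj : 0 < j) {r : ℚ}
    (h : (y : ℂ) ^ j = (r : ℂ)) : ‖((σ y : LL) : ℂ)‖ = ‖(y : ℂ)‖ := by
  have h1 : y ^ j = algebraMap ℚ LL r := by
    apply Subtype.ext
    rw [SubmonoidClass.coe_pow, h]
    rfl
  have h2 : (σ y) ^ j = algebraMap ℚ LL r := by
    rw [← map_pow, h1, AlgEquiv.commutes]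
  have h3 : ((σ y : LL) : ℂ) ^ j = (r : ℂ) := by
    have h4 := congrArg (Subtype.val : LL → ℂ) h2
    rw [SubmonoidClass.coe_pow] at h4
    exact h4
  have h5 : ‖((σ y : LL) : ℂ)‖ ^ j = ‖(y : ℂ)‖ ^ j := by
    rw [← norm_pow, ← norm_pow, h3, h]
  exact (pow_left_inj₀ (norm_nonneg _) (norm_nonneg _) hj.ne').1 h5

theorem exists_sigma {q c : ℕ} (hq : q ≠ 0) (hc : c.Coprime q) (z : LL) (hz : (z : ℂ) = zt q) :
    ∃ σ : LL ≃ₐ[ℚ] LL, σ z = z ^ c := by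
  have hp : IsPrimitiveRoot z q := by
    have h1 : IsPrimitiveRoot ((LL.val : LL →ₐ[ℚ] ℂ) z) q := by
      rw [show (LL.val : LL →ₐ[ℚ] ℂ) z = zt q from hz]
      exact zt_prim hq
    exact h1.of_map_of_injective (f := (LL.val : LL →ₐ[ℚ] ℂ)) Subtype.val_injective
  have hp2 : IsPrimitiveRoot (z ^ c) q := hp.pow_of_coprime c hc
  have hpos : 0 < q := Nat.pos_of_ne_zero hq
  have hconj : IsConjRoot ℚ (z ^ c) z := by
    rw [isConjRoot_def, ← Polynomial.cyclotomic_eq_minpoly_rat hp hpos,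
      ← Polynomial.cyclotomic_eq_minpoly_rat hp2 hpos]
  have hcl : IsAlgClosure ℚ LL := algebraicClosure.isAlgClosure ℚ ℂ
  have hnorm : Normal ℚ LL := IsAlgClosure.normal ℚ LL
  exact isConjRoot_iff_exists_algEquiv.1 hconj

/-- the constant -/
noncomputable def kap (n q : ℕ) : ℂ := -((q : ℂ) ^ n / q) * (2 * I) ^ n / (n.factorial : ℂ)

theorem kap_sq (n q : ℕ) : kap n q ^ 2 =
    ((((q : ℚ) ^ n / q) ^ 2 * (-4) ^ n / (n.factorial : ℚ) ^ 2 : ℚ) : ℂ) := by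
  unfold kap
  have h1 : ((2 * I) ^ n) ^ 2 = (-4 : ℂ) ^ n := by
    rw [← pow_mul, mul_comm n 2, pow_mul, mul_pow, I_sq]
    norm_num
  rw [div_pow, mul_pow, h1]
  push_cast
  ring

theorem four' {n q a : ℕ} (hn : 2 ≤ n) (ha : 0 < a) (haq : a < q) :
    ((hz n (((q - a : ℕ) : ℝ) / q) / Real.pi ^ n : ℝ) : ℂ) +
      (-1) ^ n * ((hz n ((a : ℝ) / q) / Real.pi ^ n : ℝ) : ℂ) = kap n q * GG n q a := by
  have h := four hn ha haq
  have hq : (q : ℂ) ≠ 0 := by exact_mod_cast (by omega : q ≠ 0)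
  have hpi : (Real.pi : ℂ) ≠ 0 := by exact_mod_cast Real.pi_ne_zero
  have h2 : kap n q * GG n q a = ((q : ℂ) ^ n / q / (Real.pi : ℂ) ^ n) *
      (-(2 * Real.pi * I) ^ n / (n.factorial : ℂ) * GG n q a) := by
    unfold kap
    have e1 : (2 * (Real.pi : ℂ) * I) ^ n = (Real.pi : ℂ) ^ n * (2 * I) ^ n := by
      rw [← mul_pow]
      congr 1
      ring
    rw [e1]
    field_simp
  rw [h2, ← h]
  push_cast
  field_simp

theorem rel {n q a b c : ℕ} (hn : 2 ≤ n) (ha : 0 < a) (haq : a < q) (hb : 0 < b) (hbq : b < q)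
    (hc : c.Coprime q) (hab : c * a ≡ b [MOD q]) {j k : ℕ} (hj : 0 < j) (hk : 0 < k) {r s : ℚ}
    (hr : (hz n ((a : ℝ) / q) / Real.pi ^ n) ^ j = r)
    (hs : (hz n (((q - a : ℕ) : ℝ) / q) / Real.pi ^ n) ^ k = s) :
    |hz n (((q - a : ℕ) : ℝ) / q) - hz n ((a : ℝ) / q)| ≤
      |hz n (((q - b : ℕ) : ℝ) / q) + (-1) ^ n * hz n ((b : ℝ) / q)| ∧
    |hz n (((q - b : ℕ) : ℝ) / q) + (-1) ^ n * hz n ((b : ℝ) / q)| ≤
      hz n (((q - a : ℕ) : ℝ) / q) + hz n ((a : ℝ) / q) := by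
  have hq : q ≠ 0 := by omega
  have hq0 : (0 : ℝ) < q := by exact_mod_cast (by omega : 0 < q)
  have hp := zt_prim hq
  have hqa : (0 : ℝ) < ((q - a : ℕ) : ℝ) := by exact_mod_cast (by omega : 0 < q - a)
  have ha0 : (0 : ℝ) < a := by exact_mod_cast ha
  have hpi : 0 < Real.pi ^ n := pow_pos Real.pi_pos n
  set u : ℝ := hz n ((a : ℝ) / q) / Real.pi ^ n with hu
  set v : ℝ := hz n (((q - a : ℕ) : ℝ) / q) / Real.pi ^ n with hv
  have hu0 : 0 < u := div_pos (hz_pos hn (by positivity)) hpi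
  have hv0 : 0 < v := div_pos (hz_pos hn (by positivity)) hpi
  have hrC : (u : ℂ) ^ j = (r : ℂ) := by exact_mod_cast congrArg (fun t : ℝ => (t : ℂ)) hr
  have hsC : (v : ℂ) ^ k = (s : ℂ) := by exact_mod_cast congrArg (fun t : ℝ => (t : ℂ)) hs
  have hzq : zt q ^ q = ((1 : ℚ) : ℂ) := by
    rw [hp.pow_eq_one]
    norm_num
  let uL : LL := ⟨(u : ℂ), mem_LL hj hrC⟩
  let vL : LL := ⟨(v : ℂ), mem_LL hk hsC⟩
  let kL : LL := ⟨kap n q, mem_LL (by norm_num : 0 < 2) (kap_sq n q)⟩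
  let zL : LL := ⟨zt q, mem_LL (by omega : 0 < q) hzq⟩
  obtain ⟨σ, hσ⟩ := exists_sigma hq hc zL rfl
  have hzL : zL ^ q = 1 := by
    apply Subtype.ext
    rw [SubmonoidClass.coe_pow]
    exact hp.pow_eq_one
  let gl : ℕ → LL := fun t => ∑ i ∈ range q, algebraMap ℚ LL (bq n q i) * zL ^ (i * t)
  have hgl : ∀ t, (gl t : ℂ) = GG n q t := by
    intro t
    have h1 : (LL.val : LL →ₐ[ℚ] ℂ) (gl t) = GG n q t := by
      show (LL.val : LL →ₐ[ℚ] ℂ) (∑ i ∈ range q, algebraMap ℚ LL (bq n q i) * zL ^ (i * t)) = _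
      rw [map_sum]
      unfold GG
      refine sum_congr rfl fun i _ => ?_
      rw [map_mul, map_pow]
      rfl
    exact h1
  have hσG : σ (gl a) = gl b := by
    show σ (∑ i ∈ range q, algebraMap ℚ LL (bq n q i) * zL ^ (i * a)) = _
    rw [map_sum]
    refine sum_congr rfl fun i _ => ?_
    rw [map_mul, AlgEquiv.commutes, map_pow, hσ, ← pow_mul]
    congr 1
    have e1 : c * (i * a) = (c * a) * i := by ring
    have e2 : zL ^ (c * a) = zL ^ b := by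
      rw [pow_eq_pow_mod (c * a) hzL, pow_eq_pow_mod b hzL]
      exact congrArg _ hab
    rw [e1, pow_mul, e2, ← pow_mul, mul_comm b i]
  have hrel : vL + (-1) ^ n * uL = kL * gl a := by
    apply Subtype.ext
    have h1 := four' hn ha haq
    rw [← hgl a] at h1
    have h2 : ((vL + (-1) ^ n * uL : LL) : ℂ) = (v : ℂ) + (-1) ^ n * (u : ℂ) := by
      push_cast
      rfl
    have h3 : ((kL * gl a : LL) : ℂ) = kap n q * (gl a : ℂ) := by
      push_cast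
      rfl
    rw [h2, h3]
    exact h1
  have hrel2 : σ vL + (-1) ^ n * σ uL = σ kL * gl b := by
    have h1 := congrArg σ hrel
    rw [map_add, map_mul, map_mul, map_pow, map_neg, map_one, hσG] at h1
    exact h1
  have hrel3 : ((σ vL : LL) : ℂ) + (-1) ^ n * ((σ uL : LL) : ℂ) = ((σ kL : LL) : ℂ) * GG n q b := by
    have h1 := congrArg (Subtype.val : LL → ℂ) hrel2
    rw [← hgl b]
    have h2 : ((σ vL + (-1) ^ n * σ uL : LL) : ℂ) =
        ((σ vL : LL) : ℂ) + (-1) ^ n * ((σ uL : LL) : ℂ) := by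
      push_cast
      rfl
    rw [← h2]
    exact h1
  have n1 : ‖((σ vL : LL) : ℂ)‖ = v := by
    rw [norm_conj σ vL hk hsC]
    show ‖(v : ℂ)‖ = v
    rw [Complex.norm_real, Real.norm_of_nonneg hv0.le]
  have n2 : ‖((σ uL : LL) : ℂ)‖ = u := by
    rw [norm_conj σ uL hj hrC]
    show ‖(u : ℂ)‖ = u
    rw [Complex.norm_real, Real.norm_of_nonneg hu0.le]
  have n3 : ‖((σ kL : LL) : ℂ)‖ = ‖kap n q‖ := norm_conj σ kL (by norm_num : 0 < 2) (kap_sq n q)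
  have n4 : ‖(-1 : ℂ) ^ n * ((σ uL : LL) : ℂ)‖ = u := by
    rw [norm_mul, norm_pow, norm_neg, norm_one, one_pow, one_mul, n2]
  have hX : ‖((σ vL : LL) : ℂ) + (-1) ^ n * ((σ uL : LL) : ℂ)‖ =
      |hz n (((q - b : ℕ) : ℝ) / q) + (-1) ^ n * hz n ((b : ℝ) / q)| / Real.pi ^ n := by
    rw [hrel3, norm_mul, n3, ← norm_mul, ← four' hn hb hbq]
    have h1 : ((hz n (((q - b : ℕ) : ℝ) / q) / Real.pi ^ n : ℝ) : ℂ) +
        (-1) ^ n * ((hz n ((b : ℝ) / q) / Real.pi ^ n : ℝ) : ℂ) =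
        (((hz n (((q - b : ℕ) : ℝ) / q) + (-1) ^ n * hz n ((b : ℝ) / q)) / Real.pi ^ n : ℝ) : ℂ) := by
      push_cast
      ring
    rw [h1, Complex.norm_real, Real.norm_eq_abs, abs_div, abs_of_pos hpi]
  have hup := norm_add_le ((σ vL : LL) : ℂ) ((-1) ^ n * ((σ uL : LL) : ℂ))
  have hlo := abs_norm_sub_norm_le ((σ vL : LL) : ℂ) (-((-1) ^ n * ((σ uL : LL) : ℂ)))
  rw [norm_neg, sub_neg_eq_add, n1, n4, hX] at hlo
  rw [n1, n4, hX] at hup
  constructor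
  · have h1 : |v - u| * Real.pi ^ n = |hz n (((q - a : ℕ) : ℝ) / q) - hz n ((a : ℝ) / q)| := by
      rw [hv, hu, ← sub_div, abs_div, abs_of_pos hpi, div_mul_cancel₀ _ hpi.ne']
    rw [← h1, ← le_div_iff₀ hpi]
    exact hlo
  · rw [div_le_iff₀ hpi] at hup
    have h1 : (v + u) * Real.pi ^ n = hz n (((q - a : ℕ) : ℝ) / q) + hz n ((a : ℝ) / q) := by
      rw [hv, hu, ← add_div, div_mul_cancel₀ _ hpi.ne']
    rw [← h1]
    exact hup

end Pool.Agent.Work.MP_f1a024_nt.HD
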