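import Pool.Agent.Work.MP_f1a024_nt.HD.C

set_option autoImplicit false

/-!
# The dichotomy
-/

namespace Pool.Agent.Work.MP_f1a024_nt.HD

open Finset

/-- residues coprime to `q` different from `±1` -/
theorem exists_mid {q : ℕ} (h0 : 0 < q) (h1 : q ≠ 1) (h2 : q ≠ 2) (h3 : q ≠ 3) (h4 : q ≠ 4)
    (h6 : q ≠ 6) : 5 ≤ q ∧ ∃ c : ℕ, 2 ≤ c ∧ c + 2 ≤ q ∧ c.Coprime q := by
  refine ⟨by omega, ?_⟩
  rcases Nat.even_or_odd' q with ⟨m, rfl | rfl⟩
  · rcases Nat.even_or_odd' m with ⟨l, rfl | rfl⟩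
    · -- q = 4 l
      refine ⟨2 * l - 1, by omega, by omega, ?_⟩
      have e1 : (2 * l - 1).Coprime 2 := by
        rw [Nat.coprime_two_right, Nat.odd_iff]
        omega
      have e2 : (2 * l - 1).Coprime (2 * l) := by
        have h := Nat.coprime_self_add_right (m := 2 * l - 1) (n := 1)
        have h' : 2 * l - 1 + 1 = 2 * l := by omega
        rw [h'] at h
        exact h.2 (Nat.coprime_one_right _)
      exact Nat.Coprime.mul_right e1 e2
    · -- q = 2 (2 l + 1)
      refine ⟨2 * l - 1, by omega, by omega, ?_⟩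
      have e1 : (2 * l - 1).Coprime 2 := by
        rw [Nat.coprime_two_right, Nat.odd_iff]
        omega
      have e2 : (2 * l - 1).Coprime (2 * l + 1) := by
        have h := Nat.coprime_self_add_right (m := 2 * l - 1) (n := 2)
        have h' : 2 * l - 1 + 2 = 2 * l + 1 := by omega
        rw [h'] at h
        exact h.2 e1
      exact Nat.Coprime.mul_right e1 e2
  · refine ⟨2, le_rfl, by omega, ?_⟩
    rw [Nat.coprime_two_left, Nat.odd_iff]
    omega

/-- the dichotomy for radicals -/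
theorem dich {n q a : ℕ} (hn : 2 ≤ n) (ha : 0 < a) (haq : a < q) (hcop : a.Coprime q)
    (h2 : q ≠ 2) (h3 : q ≠ 3) (h4 : q ≠ 4) (h6 : q ≠ 6) {j k : ℕ} (hj : 0 < j) (hk : 0 < k)
    {r s : ℚ} (hr : (hz n ((a : ℝ) / q) / Real.pi ^ n) ^ j = r)
    (hs : (hz n (((q - a : ℕ) : ℝ) / q) / Real.pi ^ n) ^ k = s) : False := by
  have hq : q ≠ 0 := by omega
  have hq0 : (0 : ℝ) < q := by exact_mod_cast (by omega : 0 < q)
  obtain ⟨h5, c0, hc0, hc0', hcc⟩ := exists_mid (by omega : 0 < q) (by omega) h2 h3 h4 h6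
  have hconv : ∀ b : ℕ, b ≤ q → ((q - b : ℕ) : ℝ) / q = 1 - (b : ℝ) / q := by
    intro b hb
    rw [Nat.cast_sub hb]
    field_simp
  have hneg : ∀ (x y : ℝ) , |x + (-1) ^ n * y| ≤ |x| + |y| := by
    intro x y
    refine (abs_add_le _ _).trans (le_of_eq ?_)
    rw [abs_mul, abs_pow, abs_neg, abs_one, one_pow, one_mul]
  have hneg2 : ∀ (x y : ℝ) , |y| - |x| ≤ |x + (-1) ^ n * y| := by
    intro x y
    have h := abs_sub_abs_le_abs_sub ((-1) ^ n * y) (-x)
    rw [abs_neg, abs_mul, abs_pow, abs_neg, abs_one, one_pow, one_mul, sub_neg_eq_add,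
      add_comm ((-1) ^ n * y) x] at h
    exact h
  have hpos : ∀ b : ℕ, 0 < b → 0 < hz n ((b : ℝ) / q) := fun b hb =>
    hz_pos hn (div_pos (by exact_mod_cast hb) hq0)
  by_cases hmid : 2 ≤ a ∧ a + 2 ≤ q
  · -- `a` in the middle: send `a` to `1`
    obtain ⟨c, hc⟩ := Nat.exists_mul_mod_eq_one_of_coprime hcop (by omega : 1 < q)
    have hc1 : c * a ≡ 1 [MOD q] := by
      rw [mul_comm]
      show a * c % q = 1 % q
      rw [hc.2, Nat.mod_eq_of_lt (by omega : 1 < q)]
    have hcq : c.Coprime q := by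
      have h := Nat.ModEq.gcd_eq hc1
      rw [Nat.gcd_one_left] at h
      exact Nat.Coprime.coprime_mul_right h
    have hrel := (rel hn ha haq (by omega : 0 < 1) (by omega) hcq hc1 hj hk hr hs).2
    have hsz := size hn h5 hmid.1 hmid.2
    have h7 := hneg2 (hz n (((q - 1 : ℕ) : ℝ) / q)) (hz n (((1 : ℕ) : ℝ) / q))
    rw [abs_of_pos (hpos 1 (by omega)), abs_of_pos (hpos (q - 1) (by omega))] at h7
    rw [← hconv a (by omega), ← hconv 1 (by omega)] at hsz
    linarith
  · -- `a = 1` or `a = q - 1`: send `a` to `c0`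
    have ha2 : a = 1 ∨ a = q - 1 := by omega
    have hex : ∃ c : ℕ, c.Coprime q ∧ c * a ≡ c0 [MOD q] := by
      rcases ha2 with rfl | rfl
      · exact ⟨c0, hcc, by rw [mul_one]⟩
      · refine ⟨q - c0, ?_, ?_⟩
        · have f1 : (q - c0).Coprime c0 :=
            (Nat.coprime_sub_self_left (by omega : c0 ≤ q)).2 hcc.symm
          have f2 := (Nat.coprime_self_add_right (m := q - c0) (n := c0)).2 f1
          have f3 : q - c0 + c0 = q := by omega
          rwa [f3] at f2
        · have e1 : (q - c0) * (q - 1) + (q - c0) = (q - c0) * q := by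
            have : q - 1 + 1 = q := by omega
            calc (q - c0) * (q - 1) + (q - c0) = (q - c0) * (q - 1 + 1) := by ring
              _ = (q - c0) * q := by rw [this]
          have e2 : (q - c0) * (q - 1) + (q - c0) ≡ c0 + (q - c0) [MOD q] := by
            rw [e1]
            have : c0 + (q - c0) = q := by omega
            rw [this]
            exact (Nat.modEq_zero_iff_dvd.2 (dvd_mul_left _ _)).trans
              (Nat.modEq_zero_iff_dvd.2 (dvd_refl q)).symm
          exact Nat.ModEq.add_right_cancel' _ e2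
    obtain ⟨c, hcq, hc1⟩ := hex
    have hrel := (rel hn ha haq (by omega : 0 < c0) (by omega) hcq hc1 hj hk hr hs).1
    have hsz := size hn h5 hc0 hc0'
    have h7 := hneg (hz n (((q - c0 : ℕ) : ℝ) / q)) (hz n ((c0 : ℝ) / q))
    rw [abs_of_pos (hpos c0 (by omega)), abs_of_pos (hpos (q - c0) (by omega))] at h7
    rw [← hconv c0 (by omega), ← hconv 1 (by omega)] at hsz
    have h8 : hz n (((1 : ℕ) : ℝ) / q) - hz n (((q - 1 : ℕ) : ℝ) / q) ≤
        |hz n (((q - a : ℕ) : ℝ) / q) - hz n ((a : ℝ) / q)| := by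
      rcases ha2 with rfl | rfl
      · rw [abs_sub_comm]
        exact le_abs_self _
      · have : q - (q - 1) = 1 := by omega
        rw [this]
        exact le_abs_self _
    linarith

end Pool.Agent.Work.MP_f1a024_nt.HD
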